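import Pool.Agent.N888.TB.Main

/-!
# A variety which satisfies the splitting condition and has adelic points but an empty
Brauer-Manin set

The variety is the affine curve `X : y² = x³ + x`, `y ≠ 0` over `ℚ`, an elliptic curve minus its
`2`-torsion. The sections come from the tangential base points at the missing rational point
`(0, 0)`. If an adelic point of `X` is orthogonal to the cyclic algebras `(χ, x)` and `(χ, y)`, `χ`
the characters of `3`-power conductor, and to constant multiples of these, its coordinates are
rational, and by Fermat `y² = x³ + x` has no rational solution with `y ≠ 0`.

The definitions are in `Pool/Agent/N888/TB/Def.lean`.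
-/

set_option autoImplicit false

namespace Pool.Agent.Results.MP_ad201b_nt.TangentialCurve

open Pool.Agent.N888.TB

/-- There is an affine variety `X = Spec R` over `ℚ` which satisfies the splitting condition, has
adelic points and has an empty Brauer-Manin set. -/
theorem result :
    ∃ (R : Type) (_ : CommRing R) (_ : IsDomain R) (_ : Algebra ℚ R), Algebra.FiniteType ℚ R ∧
      BirationalSplitting R ∧ SplittingCondition R ∧ Nonempty (AdelicPoint R) ∧
      ∀ (I : LocalInvariants) (P : AdelicPoint R), ¬ InBrauerManinSet I P :=
  curve_main

end Pool.Agent.Results.MP_ad201b_nt.TangentialCurve
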